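import Pool.Agent.LRG.StmtsB2

/-!
# LRG, row DTA (helper42)

The determinant of a matrix which is of rank `W` modulo `Q` is divisible by `Q ^ (L - W)`.
Every row is the sum over `Option (Fin W)` of `γ a t • E t` (`some t`) and `Q • R a` (`none`);
expand the determinant multilinearly.
-/

set_option autoImplicit false

namespace Pool.Agent.LRG.H42

/-- Row DTA. -/
theorem dta : DtaStmt := by
  intro A _ Q L W γ E R
  classical
  let c : Fin L → Option (Fin W) → A := fun a j => j.elim Q (γ a)
  let v : Fin L → Option (Fin W) → Fin L → A := fun a j => j.elim (R a) E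
  have hM : (Matrix.of fun a e => ∑ t, γ a t * E t e + Q * R a e).det =
      Matrix.detRowAlternating (R := A) fun a => ∑ j : Option (Fin W), c a j • v a j := by
    change Matrix.det _ = Matrix.det _
    congr 1
    ext a e
    simp only [Matrix.of_apply, Finset.sum_apply, Pi.smul_apply, smul_eq_mul,
      Fintype.sum_option, c, v, Option.elim_none, Option.elim_some]
    ring
  rw [hM]
  have hs := (Matrix.detRowAlternating (R := A) (n := Fin L)).toMultilinearMap.map_sum
    (fun (a : Fin L) (j : Option (Fin W)) => c a j • v a j)
  change Matrix.detRowAlternating (R := A) (fun a => ∑ j : Option (Fin W), c a j • v a j) = _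
    at hs
  rw [hs]
  refine Finset.dvd_sum fun r _ => ?_
  have hr : (Matrix.detRowAlternating (R := A) (n := Fin L)).toMultilinearMap
      (fun a => c a (r a) • v a (r a)) =
      (∏ a, c a (r a)) * Matrix.det (fun a => v a (r a)) := by
    rw [MultilinearMap.map_smul_univ]
    rfl
  rw [hr]
  by_cases h : ∃ a b, a ≠ b ∧ r a = r b ∧ r a ≠ none
  · obtain ⟨a, b, hab, h1, h2⟩ := h
    obtain ⟨t, ht⟩ := Option.ne_none_iff_exists'.1 h2
    have h0 : Matrix.det (fun a => v a (r a)) = 0 := by
      refine Matrix.det_zero_of_row_eq hab ?_
      have e1 : v a (r a) = E t := by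
        rw [ht]
        rfl
      have e2 : v b (r b) = E t := by
        rw [← h1, ht]
        rfl
      exact e1.trans e2.symm
    rw [h0, mul_zero]
    exact dvd_zero _
  · push Not at h
    refine Dvd.dvd.mul_right ?_ _
    rw [← Finset.prod_filter_mul_prod_filter_not Finset.univ (fun a => r a = none)]
    refine Dvd.dvd.mul_right ?_ _
    have h1 : ∏ a with r a = none, c a (r a) = Q ^ (Finset.univ.filter fun a => r a = none).card := by
      rw [Finset.prod_congr rfl (g := fun _ => Q), Finset.prod_const]
      intro a ha
      rw [(Finset.mem_filter.1 ha).2]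
      rfl
    rw [h1]
    refine pow_dvd_pow _ ?_
    have h2 : (Finset.univ.filter fun a => ¬ r a = none).card ≤ W := by
      have h3 : (Finset.univ.filter fun a => ¬ r a = none).card ≤
          (Finset.univ.image (some : Fin W → Option (Fin W))).card := by
        refine Finset.card_le_card_of_injOn r ?_ ?_
        · intro a ha
          obtain ⟨t, ht⟩ := Option.ne_none_iff_exists'.1 (Finset.mem_filter.1 (Finset.mem_coe.1 ha)).2
          rw [ht]
          exact Finset.mem_coe.2 (Finset.mem_image_of_mem _ (Finset.mem_univ t))
        · intro a ha b _ hab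
          by_contra hne
          exact (Finset.mem_filter.1 (Finset.mem_coe.1 ha)).2 (h a b hne hab)
      exact h3.trans (Finset.card_image_le.trans (by simp))
    have h4 := Finset.card_filter_add_card_filter_not (s := (Finset.univ : Finset (Fin L)))
      (fun a => r a = none)
    rw [Finset.card_univ, Fintype.card_fin] at h4
    omega

end Pool.Agent.LRG.H42
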