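import Pool.Agent.LRG.StmtsK
import Pool.Agent.Helper90_LUB.AXK

/-!
# LRG, row AIN (helper42)

Algebraic independence of the logarithms over the algebraic functions; the middle part of the proof
of `LUB.H90.axk`.
-/

set_option autoImplicit false

namespace Pool.Agent.LRG.H42

open Pool.Agent.LUB.H90

/-- Row AIN. -/
theorem ain : K.OscConcl → K.AinStmt := by
  intro osc Ω _ _ D T hT q v z hv0 hvT hDz hind
  classical
  have hvA : ∀ l, v l ∈ Alg D T := fun l => mem_Alg.2 (hvT l)
  refine ⟨Alg D T, fun a => mem_Alg, ?_⟩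
  let _ : Algebra (Cst D) (Alg D T) := (Subfield.inclusion (Cst_le_Alg D T)).toAlgebra
  have hst : IsScalarTower (Cst D) (Alg D T) Ω := IsScalarTower.of_algebraMap_eq fun x => rfl
  have hcz : CharZero (Alg D T) := inferInstance
  refine Pool.Agent.Helper65_Leo.algebraicIndependent_of_primitives (k := Cst D)
    (A := Alg D T) (F := Ω) (derA D T hT) (der D T) (fun a => rfl) ?_ z
    (fun l => ⟨der D T (v l) / v l, (Alg D T).div_mem (der_Alg D T hT (hvA l)) (hvA l)⟩) ?_ ?_
  · intro x hx
    have h1 : D x = 0 := by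
      rw [der_apply] at hx
      exact (mul_eq_zero.1 hx).resolve_left (inv_ne_zero hT)
    exact ⟨⟨x, h1⟩, rfl⟩
  · intro l
    change der D T (z l) = der D T (v l) / v l
    rw [der_apply, der_apply, hDz, mul_div_assoc]
  · rintro c ⟨a, ha⟩
    have h1 : D ((a : Alg D T) : Ω) = ∑ l, (c l : Ω) * (D (v l) / v l) := by
      have h2 : ((a : Alg D T) : Ω) = ∑ l, (c l : Ω) * z l := ha
      rw [h2, map_sum]
      refine Finset.sum_congr rfl fun l _ => ?_
      have h3 : D (c l : Ω) = 0 := (c l).2
      rw [Derivation.leibniz, h3, smul_zero, add_zero, smul_eq_mul, hDz]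
    have h2 := osc Ω D T hT (Fin q) v (fun l => (c l : Ω)) (a : Ω) (fun l => (c l).2) hv0
      (fun l => mem_Alg.1 (hvA l)) (mem_Alg.1 a.2) hind h1.symm
    funext l
    exact Subtype.ext (congrFun h2 l)

end Pool.Agent.LRG.H42
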