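import Pool.Agent.LRG.StmtsE

/-!
# LRG, row TRE (helper42)

The trace to a subfield: `ℂ` is an `M`-algebra by `τ`, and the ring homomorphisms `K → ℂ` over `τ` are
the `M`-algebra homomorphisms.
-/

set_option autoImplicit false

open NumberField

namespace Pool.Agent.LRG.H42

/-- Row TRE. -/
theorem tre : E.TreStmt := by
  intro K _ _ M τ θ S hS
  classical
  let _ : Algebra M ℂ := τ.toAlgebra
  have hmap : S = Finset.univ.map
      ⟨fun σ : K →ₐ[M] ℂ => (σ : K →+* ℂ), AlgHom.coe_ringHom_injective⟩ := by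
    ext σ
    rw [hS]
    constructor
    · intro h
      refine Finset.mem_map.2 ⟨⟨σ, fun m => ?_⟩, Finset.mem_univ _, ?_⟩
      · exact RingHom.congr_fun h m
      · rfl
    · intro h
      obtain ⟨σ', -, rfl⟩ := Finset.mem_map.1 h
      ext m
      exact σ'.commutes m
  refine ⟨?_, ?_⟩
  · have h := trace_eq_sum_embeddings (K := M) (L := K) ℂ (x := θ)
    rw [hmap, Finset.sum_map]
    exact h
  · rw [hmap, Finset.card_map, Finset.card_univ]
    exact AlgHom.card M K ℂ

end Pool.Agent.LRG.H42
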